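import Pool.Agent.helper16.EXT.Spec3T

/-!
# Row ft3:IPR (MP_561ff4_al): powers of automorphisms which map root subgroups to root subgroups
-/

set_option autoImplicit false

open Finset

namespace Pool.Agent.EXT

open Pool.Agent.EXC

theorem IPR : IPR_stmt := by
  intro K _ τ x j hx
  induction j with
  | zero =>
    intro a ha
    refine ⟨a, ha, fun f => ?_⟩
    rw [pow_zero]
    exact Iff.rfl
  | succ j ih =>
    intro a ha
    obtain ⟨b, hb, h1⟩ := ih a ha
    obtain ⟨c, hc, h2⟩ := hx b hb
    refine ⟨c, hc, fun f => ?_⟩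
    rw [pow_succ']
    exact (h1 f).trans (h2 _)

end Pool.Agent.EXT
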